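import Pool.Agent.Y910.F.Stm4
import Pool.Agent.Y550.FC.GAP

/-!
Project FC (helper910), job FG-GAP (helper304): the gap principle for points in one class up to
quadratic twists. The proof is the one of `Pool.Agent.Y550.FC.GAP` (helper550) with the square roots
of the twisting integers divided out.
-/

open Polynomial Filter

set_option autoImplicit false

namespace Pool.Agent.Y304.FG.GAP

open Pool.Agent.Y910.G Pool.Agent.Y910.R Pool.Agent.Y550.FC.GAP

/-! ### Traces -/

lemma trI2 (g : ℤ[X]) (hg : (g.map (Int.castRingHom ℚ)).Separable) (B : ℚ[X]) (c : ℂ) (N : ℤ)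
    (hc : c ^ 2 = (N : ℂ))
    (hB : ∀ r : ℂ, aeval r g = 0 →
      IsIntegral ℤ ((g.leadingCoeff : ℂ) * ((B.map (algebraMap ℚ ℂ)).eval r / c))) (j l : ℕ) :
    ∃ z : ℤ, ((g.leadingCoeff : ℂ) ^ (j + 1) *
      ∑ r ∈ ((g.map (Int.castRingHom ℚ)).map (algebraMap ℚ ℂ)).roots.toFinset,
        r ^ j * ((B.map (algebraMap ℚ ℂ)).eval r / c)) * ((g.leadingCoeff : ℂ) ^ (l + 1) *
      ∑ r ∈ ((g.map (Int.castRingHom ℚ)).map (algebraMap ℚ ℂ)).roots.toFinset,
        r ^ l * ((B.map (algebraMap ℚ ℂ)).eval r / c)) = (z : ℂ) := by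
  have hq0 : ∀ j : ℕ, ∃ q : ℚ, (g.leadingCoeff : ℂ) ^ (j + 1) *
      ∑ r ∈ ((g.map (Int.castRingHom ℚ)).map (algebraMap ℚ ℂ)).roots.toFinset,
        r ^ j * ((B.map (algebraMap ℚ ℂ)).eval r / c) = (q : ℂ) / c := by
    intro j
    obtain ⟨q, hq⟩ := trace_rat _ hg (C ((g.leadingCoeff : ℚ) ^ (j + 1)) * (X ^ j * B))
    refine ⟨q, ?_⟩
    rw [← hq, Finset.mul_sum, Finset.sum_div]
    refine Finset.sum_congr rfl fun r _ => ?_
    simp
    ring
  have hint : ∀ j : ℕ, IsIntegral ℤ ((g.leadingCoeff : ℂ) ^ (j + 1) *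
      ∑ r ∈ ((g.map (Int.castRingHom ℚ)).map (algebraMap ℚ ℂ)).roots.toFinset,
        r ^ j * ((B.map (algebraMap ℚ ℂ)).eval r / c)) := by
    intro j
    rw [Finset.mul_sum]
    apply IsIntegral.sum
    intro r hr
    have hr0 : aeval r g = 0 := by
      rw [Multiset.mem_toFinset] at hr
      have h3 := (mem_roots'.1 hr).2
      rw [IsRoot.def, Polynomial.map_map, eval_map] at h3
      rw [aeval_def, ← h3]
      congr 1
    have h5 : IsIntegral ℤ ((g.leadingCoeff : ℂ) * r) := by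
      have := isIntegral_leadingCoeff_smul g r hr0
      rwa [zsmul_eq_mul] at this
    have h8 : (g.leadingCoeff : ℂ) ^ (j + 1) * (r ^ j * ((B.map (algebraMap ℚ ℂ)).eval r / c)) =
        ((g.leadingCoeff : ℂ) * r) ^ j * ((g.leadingCoeff : ℂ) *
          ((B.map (algebraMap ℚ ℂ)).eval r / c)) := by ring
    rw [h8]
    exact (h5.pow j).mul (hB r hr0)
  obtain ⟨q1, h1⟩ := hq0 j
  obtain ⟨q2, h2⟩ := hq0 l
  have hI := (hint j).mul (hint l)
  rw [h1, h2] at hI ⊢
  have e1 : (q1 : ℂ) / c * ((q2 : ℂ) / c) = ((q1 * q2 / (N : ℚ) : ℚ) : ℂ) := by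
    push_cast
    rw [← hc]
    ring
  rw [e1] at hI ⊢
  have h3 : IsIntegral ℤ (q1 * q2 / (N : ℚ) : ℚ) := by
    have h4 : IsIntegral ℤ (algebraMap ℚ ℂ (q1 * q2 / (N : ℚ))) := by simpa using hI
    exact (isIntegral_algebraMap_iff (algebraMap ℚ ℂ).injective).1 h4
  obtain ⟨z, hz⟩ := IsIntegrallyClosed.isIntegral_iff.1 h3
  refine ⟨z, ?_⟩
  rw [← hz]
  simp

lemma R0_sum2 (S : Sca) {d : ℕ} {g : ℕ → ℤ[X]}
    (hsep : ∀ n, ((g n).map (Int.castRingHom ℚ)).Separable)
    (hlc : ∀ n, (g n).leadingCoeff ≠ 0) (hlcT : ∀ n, |(g n).leadingCoeff| ≤ (S.T n : ℤ))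
    (θ : ∀ _ : ℕ, Fin d → ℂ)
    (hθs : ∀ n, ∀ F : ℂ → ℂ, ∑ i, F (θ n i) =
        ∑ r ∈ (((g n).map (Int.castRingHom ℚ)).map (algebraMap ℚ ℂ)).roots.toFinset, F r)
    (B : ℕ → ℚ[X]) (c : ℕ → ℂ) (N : ℕ → ℤ) (hc : ∀ n, c n ^ 2 = (N n : ℂ))
    (hB : ∀ n, ∀ r : ℂ, aeval r (g n) = 0 →
      IsIntegral ℤ (((g n).leadingCoeff : ℂ) * (((B n).map (algebraMap ℚ ℂ)).eval r / c n)))
    (j l : ℕ) :
    (∑ i, cc (fun n => θ n i) ^ j *
      cc (fun n => ((B n).map (algebraMap ℚ ℂ)).eval (θ n i) / c n)) *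
    (∑ i, cc (fun n => θ n i) ^ l *
      cc (fun n => ((B n).map (algebraMap ℚ ℂ)).eval (θ n i) / c n)) ∈ R0 S := by
  choose z hz using fun n => trI2 (g n) (hsep n) (B n) (c n) (N n) (hc n) (hB n) j l
  refine ⟨z, fun n => (g n).leadingCoeff ^ (j + l + 2), fun n => pow_ne_zero _ (hlc n),
    ⟨j + l + 2, fun n => ?_⟩, ?_⟩
  · rw [abs_pow]
    exact pow_le_pow_left₀ (abs_nonneg _) (hlcT n) _
  · rw [qc_apply]
    simp only [← map_pow, ← map_mul, ← map_sum]
    congr 1
    ext n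
    rw [Pi.mul_apply, Finset.sum_apply, Finset.sum_apply]
    simp only [Pi.pow_apply, Pi.mul_apply]
    have h1 := hθs n (fun r => r ^ j * (((B n).map (algebraMap ℚ ℂ)).eval r / c n))
    have h1' := hθs n (fun r => r ^ l * (((B n).map (algebraMap ℚ ℂ)).eval r / c n))
    rw [h1, h1']
    have h2 := hz n
    have h3 : ((g n).leadingCoeff : ℂ) ≠ 0 := by
      exact_mod_cast hlc n
    push_cast
    rw [← h2, eq_div_iff (pow_ne_zero _ h3)]
    ring

/-- the main lemma -/
theorem done : Pool.Agent.Y910.F.StCORE2 → Pool.Agent.Y910.F.StGAP2 := by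
  intro hcore
  intro d hd
  by_contra hcon
  push Not at hcon
  choose H f hH1 hdeg hsep hcoef x hxinj hxbig hxB hgap using hcon
  choose bb B hb0 hB using hxB
  let S : Sca := ⟨fun n => 2 * H n, fun n => by have := hH1 n; omega⟩
  have hHT : ∀ n, (H n : ℤ) ≤ (S.T n : ℤ) := by
    intro n
    change (H n : ℤ) ≤ ((2 * H n : ℕ) : ℤ)
    push_cast
    have := hH1 n
    omega
  have hkint : ∀ f : ℕ → ℤ, (∀ n, |f n| ≤ H n) → qc (fun n => (f n : ℚ)) ∈ k0 S := by
    intro f hf
    refine ⟨_, ⟨1, fun n => ?_⟩, rfl⟩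
    apply Ht.int (S.one_le n 1)
    rw [pow_one]
    exact (hf n).trans (hHT n)
  choose θ hθi hθ0 hθs using fun n => exists_enum (f n) (hsep n) d (hdeg n)
  have hlc : ∀ n, (f n).leadingCoeff ≠ 0 := by
    intro n h
    rw [leadingCoeff_eq_zero] at h
    have := hdeg n
    rw [h, natDegree_zero] at this
    omega
  have hlcT : ∀ n, |(f n).leadingCoeff| ≤ (S.T n : ℤ) := fun n =>
    (hcoef n _).trans (hHT n)
  have hc : ∀ l, qc (fun n => (((f n).coeff l : ℤ) : ℚ)) ∈ k0 S := fun l =>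
    hkint _ fun n => hcoef n l
  have hkV : ∀ z ∈ k0 S, z ∈ VV S := fun z hz => k0_le S hz
  obtain ⟨Θ, hΘ⟩ : ∃ Θ : Fin d → Oc, ∀ i, Θ i = cc (fun n => θ n i) := ⟨_, fun _ => rfl⟩
  obtain ⟨Xa, hXa⟩ : ∃ Xa : Fin (2 ^ d + 1) → Oc, ∀ a, Xa a = cc (fun n => (x n a : ℂ)) :=
    ⟨_, fun _ => rfl⟩
  have hsgx : ∀ n a, ∃ s : ℂ, s ^ 2 = (bb n a : ℂ) := fun n a =>
    IsAlgClosed.exists_pow_nat_eq _ (by norm_num)
  choose sg hsg using hsgx
  have hbc : ∀ n a, (bb n a : ℂ) ≠ 0 := fun n a => by exact_mod_cast hb0 n a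
  have hsg0 : ∀ n a, sg n a ≠ 0 := by
    intro n a h
    have h1 := hsg n a
    rw [h, zero_pow two_ne_zero] at h1
    exact hbc n a h1.symm
  obtain ⟨BE, hBE⟩ : ∃ BE : Fin (2 ^ d + 1) → Fin d → Oc, ∀ a i,
      BE a i = cc (fun n => ((B n a).map (algebraMap ℚ ℂ)).eval (θ n i) / sg n a) :=
    ⟨_, fun _ _ => rfl⟩
  have hsq : ∀ n a, ∃ s : ℂ, s ^ 2 = (x n a : ℂ) := fun n a =>
    IsAlgClosed.exists_pow_nat_eq _ (by norm_num)
  choose s hs using hsq
  obtain ⟨Sa, hSa⟩ : ∃ Sa : Fin (2 ^ d + 1) → Oc, ∀ a, Sa a = cc (fun n => s n a) :=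
    ⟨_, fun _ => rfl⟩
  have hSX : ∀ a, Sa a ^ 2 = Xa a := by
    intro a
    rw [hSa, hXa, ← map_pow]
    congr 1
    ext n
    exact hs n a
  have hΘalg : ∀ i, Θ i ∈ algebraicClosure (k0 S) Oc := by
    intro i
    rw [hΘ]
    exact alg_germ S hdeg hlc hc _ (Ev.of_forall fun n => hθ0 n i)
  have hΘV : ∀ i, Θ i ∈ VV S := fun i => alg_mem (VV S) (k0 S) hkV (hΘalg i)
  have hXV : ∀ a, Xa a ∉ VV S := by
    rintro a ⟨h, hf, m, hm⟩
    rw [hXa, cc_eq] at hf
    obtain ⟨n, hn1, hn2⟩ := (hf.and (ev_ge m)).exists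
    have h1 := hm n
    rw [hn1, Complex.norm_intCast] at h1
    have h2 : (|x n a| : ℤ) ≤ (S.T n : ℤ) ^ m := by exact_mod_cast h1
    have h3 : (S.T n : ℤ) ^ m ≤ (S.T n : ℤ) ^ n := by
      apply pow_le_pow_right₀ _ hn2
      have := S.hT n
      omega
    have h4 := hxbig n a
    change |x n a| ≤ ((2 * H n : ℕ) : ℤ) ^ m at h2
    change ((2 * H n : ℕ) : ℤ) ^ m ≤ ((2 * H n : ℕ) : ℤ) ^ n at h3
    push_cast at h2 h3
    exact absurd (h2.trans h3) (not_le.2 h4)
  -- the squares, pointwise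
  have hsqn : ∀ n a (r : ℂ), aeval r (f n) = 0 →
      (((B n a).map (algebraMap ℚ ℂ)).eval r / sg n a) ^ 2 =
        ((x n 0 : ℂ) - r) * ((x n a : ℂ) - r) := by
    intro n a r hr
    have h3 := eval_of_dvd hr (hB n a)
    simp only [Polynomial.map_sub, Polynomial.map_pow, Polynomial.map_mul, Polynomial.map_C,
      Polynomial.map_X, eval_sub, eval_pow, eval_mul, eval_C, eval_X] at h3
    rw [sub_eq_zero] at h3
    rw [div_pow, h3, hsg n a, div_eq_iff (hbc n a)]
    simp
    try ring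
  have hBsq : ∀ a i, BE a i ^ 2 = (Xa 0 - Θ i) * (Xa a - Θ i) := by
    intro a i
    rw [hBE, hXa, hXa, hΘ, ← map_pow, ← map_sub, ← map_sub, ← map_mul]
    congr 1
    ext n
    simp only [Pi.pow_apply, Pi.mul_apply, Pi.sub_apply]
    exact hsqn n a _ (hθ0 n i)
  -- the signs
  choose e he using fun a i => sign (VV S) (hXV 0) (hXV a) (hSX 0) (hSX a) (hΘV i) (hBsq a i)
  obtain ⟨a0, b0, hab0, heq0⟩ := Fintype.exists_ne_map_eq_of_card_lt e (by
    rw [Fintype.card_fun, Fintype.card_bool, Fintype.card_fin, Fintype.card_fin]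
    omega)
  -- the power sums
  have hpow : ∀ j : ℕ, ∑ i, Θ i ^ j ∈ k0 S := by
    intro j
    apply R0_V
    · have h1 := R0_sum S hsep hlc hlcT θ hθs (fun _ => 1) (fun n r _ => by
        rw [one_eval, mul_one]
        exact isIntegral_algebraMap (R := ℤ) (x := (f n).leadingCoeff)) j
      have h2 : ∀ i, cc (fun n => θ n i) ^ j *
          cc (fun n => ((1 : ℚ[X]).map (algebraMap ℚ ℂ)).eval (θ n i)) = Θ i ^ j := by
        intro i
        rw [hΘ]
        have h3 : (fun n => ((1 : ℚ[X]).map (algebraMap ℚ ℂ)).eval (θ n i)) = 1 := by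
          funext n
          exact one_eval _
        rw [h3, map_one, mul_one]
      simp only [h2] at h1
      exact h1
    · exact sum_mem fun i _ => pow_mem (hΘV i) j
  -- the evaluation at the first point is almost always nonzero
  have hne : Ev fun n => ¬ aeval (x n 0 : ℂ) (f n) = 0 := by
    rw [ev_not]
    intro h
    apply hXV 0
    rw [hXa]
    exact alg_mem (VV S) (k0 S) hkV (alg_germ S hdeg hlc hc _ h)
  have hI : ∀ n, ∃ I : ℚ[X], (¬ aeval (x n 0 : ℂ) (f n) = 0 → (f n).map (Int.castRingHom ℚ) ∣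
      I * (C (x n 0 : ℚ) - X) - 1) ∧ (aeval (x n 0 : ℂ) (f n) = 0 → I = 0) := by
    intro n
    by_cases h : aeval (x n 0 : ℂ) (f n) = 0
    · exact ⟨0, fun h' => absurd h h', fun _ => rfl⟩
    · have h1 : IsCoprime (X - C (x n 0 : ℚ)) ((f n).map (Int.castRingHom ℚ)) := by
        refine (irreducible_X_sub_C _).coprime_iff_not_dvd.2 fun h2 => h ?_
        rw [dvd_iff_isRoot, IsRoot.def, eval_map] at h2
        have h3 := congrArg (algebraMap ℚ ℂ) h2
        rw [hom_eval₂, map_zero] at h3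
        rw [aeval_def, ← h3]
        congr 1
      obtain ⟨u, w, huw⟩ := h1
      refine ⟨-u, fun _ => ⟨-w, ?_⟩, fun h' => absurd h' h⟩
      linear_combination huw
  choose I hI1 hI2 using hI
  -- the main step
  have main : ∀ a b, a ≠ b → e a = e b → (Ev fun n => |x n a| ≤ |x n b|) → False := by
    intro a b hab heq hle
    have hcb : ∀ i, _ := fun i => comb (VV S) (hXV 0) (hXV a) (hXV b) (hSX 0) (hSX a) (hSX b)
      (hΘV i) (hBsq a i) (hBsq b i) (e a i) (he a i) (by rw [heq]; exact he b i)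
    have hβ : ∀ i, BE a i * BE b i / (Xa 0 - Θ i) =
        cc (fun n => ((B n a * B n b * I n).map (algebraMap ℚ ℂ)).eval (θ n i) /
          (sg n a * sg n b)) := by
      intro i
      have h0 : Xa 0 - Θ i ≠ 0 := by
        intro h
        apply hXV 0
        rw [sub_eq_zero.1 h]
        exact hΘV i
      rw [div_eq_iff h0, hBE, hBE, hXa, hΘ, ← map_mul, ← map_sub, ← map_mul, cc_eq]
      refine hne.mono fun n hn => ?_
      have h3 := eval_of_dvd (hθ0 n i) (hI1 n hn)
      simp only [Polynomial.map_sub, Polynomial.map_mul, Polynomial.map_C,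
        Polynomial.map_X, Polynomial.map_one, eval_sub, eval_mul, eval_C, eval_X, eval_one] at h3
      have h4 : eval (θ n i) ((I n).map (algebraMap ℚ ℂ)) * ((x n 0 : ℂ) - θ n i) = 1 := by
        have h5 : ((algebraMap ℚ ℂ) (x n 0 : ℚ)) = (x n 0 : ℂ) := by simp
        rw [h5] at h3
        exact sub_eq_zero.1 h3
      simp only [Pi.mul_apply, Pi.sub_apply, Polynomial.map_mul, eval_mul]
      have h6 := hsg0 n a
      have h7 := hsg0 n b
      calc _ = eval (θ n i) ((B n a).map (algebraMap ℚ ℂ)) *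
            eval (θ n i) ((B n b).map (algebraMap ℚ ℂ)) / (sg n a * sg n b) := by
            field_simp
        _ = eval (θ n i) ((B n a).map (algebraMap ℚ ℂ)) *
            eval (θ n i) ((B n b).map (algebraMap ℚ ℂ)) *
            (eval (θ n i) ((I n).map (algebraMap ℚ ℂ)) * ((x n 0 : ℂ) - θ n i)) /
              (sg n a * sg n b) := by rw [h4, mul_one]
        _ = _ := by ring
    have hXab : Xa a = Xa b := by
      refine hcore Oc (VV S) (k0 S) (R0 S) hkV (fun z hz => k0_le_R0 S hz)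
        (fun z hz hz' => R0_V S hz hz') (Fin d) (Xa a) (Xa b) (Sa a) (Sa b) Θ
        (fun i => BE a i * BE b i / (Xa 0 - Θ i)) (by rw [Fintype.card_fin]; exact hd)
        (hXV a) (hSX a) (hSX b) ?_ ?_ ?_ hΘalg hpow (fun i => (hcb i).1) (fun i => (hcb i).2) ?_
      · -- the quotient
        refine ⟨fun n => if |x n a| ≤ |x n b| then (x n a : ℂ) / x n b else 0, ?_, 0, fun n => ?_⟩
        · rw [hXa, hXa, div_eq_mul_inv, cc_inv, ← map_mul, cc_eq]
          refine hle.mono fun n hn => ?_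
          simp only [Pi.mul_apply]
          rw [if_pos hn, div_eq_mul_inv]
        · dsimp only
          rw [pow_zero]
          split_ifs with h1
          · rw [norm_div, Complex.norm_intCast, Complex.norm_intCast]
            have h2 : |(x n a : ℝ)| ≤ |(x n b : ℝ)| := by exact_mod_cast h1
            exact div_le_one_of_le₀ h2 (abs_nonneg _)
          · simp
      · have h1 : Xa b / Xa a ^ 3 = (Xa a)⁻¹ * (Xa b / Xa a ^ 2) := by
          have h0 : Xa a ≠ 0 := fun h => hXV a (h ▸ (VV S).zero_mem)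
          field_simp
        rw [h1]
        refine m_mul (VV S) (inv_small (VV S) (hXV a)) ?_
        refine ⟨fun n => (x n b : ℂ) / x n a ^ 2, ?_, 0, fun n => ?_⟩
        · rw [hXa, hXa, div_eq_mul_inv, ← map_pow, cc_inv, ← map_mul]
          congr 1
        · rw [pow_zero, norm_div, norm_pow, Complex.norm_intCast, Complex.norm_intCast]
          have h2 := (hgap n a b hab).le
          have h3 : |(x n b : ℝ)| ≤ |(x n a : ℝ)| ^ 2 := by exact_mod_cast h2
          exact div_le_one_of_le₀ h3 (by positivity)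
      · intro i j hij
        rw [hΘ, hΘ, cc_eq] at hij
        obtain ⟨n, hn⟩ := hij.exists
        exact hθi n hn
      · intro j l
        have h1 := R0_sum2 S hsep hlc hlcT θ hθs (fun n => B n a * B n b * I n)
          (fun n => sg n a * sg n b) (fun n => bb n a * bb n b)
          (fun n => by rw [mul_pow, hsg, hsg]; push_cast; ring) ?_ j l
        · simp only [hβ]
          simp only [hΘ]
          exact h1
        · intro n r hr
          by_cases h : aeval (x n 0 : ℂ) (f n) = 0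
          · rw [hI2 n h, mul_zero, Polynomial.map_zero, eval_zero, zero_div, mul_zero]
            exact isIntegral_zero
          · have h3 := eval_of_dvd hr (hI1 n h)
            simp only [Polynomial.map_sub, Polynomial.map_mul, Polynomial.map_C,
              Polynomial.map_X, Polynomial.map_one, eval_sub, eval_mul, eval_C, eval_X,
              eval_one] at h3
            have h5 : ((algebraMap ℚ ℂ) (x n 0 : ℚ)) = (x n 0 : ℂ) := by simp
            rw [h5] at h3
            have h4 : eval r ((I n).map (algebraMap ℚ ℂ)) * ((x n 0 : ℂ) - r) = 1 :=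
              sub_eq_zero.1 h3
            apply IsIntegral.of_pow (n := 2) (by norm_num)
            simp only [Polynomial.map_mul, eval_mul]
            have h6 : (((f n).leadingCoeff : ℂ) * (eval r ((B n a).map (algebraMap ℚ ℂ)) *
                eval r ((B n b).map (algebraMap ℚ ℂ)) *
                eval r ((I n).map (algebraMap ℚ ℂ)) / (sg n a * sg n b))) ^ 2 =
                (((f n).leadingCoeff : ℂ) * ((x n a : ℂ) - r)) *
                (((f n).leadingCoeff : ℂ) * ((x n b : ℂ) - r)) := by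
              have h7 := hsqn n a r hr
              have h8 := hsqn n b r hr
              calc _ = ((f n).leadingCoeff : ℂ) ^ 2 *
                    ((eval r ((B n a).map (algebraMap ℚ ℂ)) / sg n a) ^ 2) *
                    ((eval r ((B n b).map (algebraMap ℚ ℂ)) / sg n b) ^ 2) *
                    (eval r ((I n).map (algebraMap ℚ ℂ))) ^ 2 := by ring
                _ = ((f n).leadingCoeff : ℂ) ^ 2 * ((x n a : ℂ) - r) * ((x n b : ℂ) - r) *
                    (eval r ((I n).map (algebraMap ℚ ℂ)) * ((x n 0 : ℂ) - r)) ^ 2 := by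
                  rw [h7, h8]; ring
                _ = _ := by rw [h4]; ring
            rw [h6]
            exact (int_lin hr _).mul (int_lin hr _)
    rw [hXa, hXa, cc_eq] at hXab
    obtain ⟨n, hn⟩ := hXab.exists
    exact hab (hxinj n (by exact_mod_cast hn))
  have hor : Ev fun n => |x n a0| ≤ |x n b0| ∨ |x n b0| ≤ |x n a0| :=
    Ev.of_forall fun n => le_total _ _
  rcases ev_or.1 hor with h | h
  · exact main a0 b0 hab0 heq0 h
  · exact main b0 a0 hab0.symm heq0.symm h

end Pool.Agent.Y304.FG.GAP
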